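import Pool.Agent.Helper73.SW.Wrap
import Pool.Agent.Helper49.SW.Main

/-!
# Rank four: all lines have between `k` and `s` points, `4 (s ^ 2 + 3 s - k) ≤ (k - 2) (k - 3) ^ 2`
-/

set_option autoImplicit false
set_option linter.unusedSectionVars false

namespace Pool.Agent.Helper73.SW

open Finset Pool.Agent.Helper28.BPack Pool.Agent.Helper61.Motz Pool.Agent.Helper38.Thick
  Pool.Agent.Helper8.ManyLines Pool.Agent.Helper63.CR

theorem six_le' {k s : ℕ} (hs : 2 ≤ s) (hks : k ≤ s)
    (h : 4 * (s ^ 2 + 3 * s - k) ≤ (k - 2) * (k - 3) ^ 2) : 6 ≤ k := by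
  by_contra hk
  have h1 : (k - 2) * (k - 3) ^ 2 ≤ 3 * 2 ^ 2 :=
    Nat.mul_le_mul (by omega) (Nat.pow_le_pow_left (by omega) 2)
  have h2 : 4 ≤ s ^ 2 := by nlinarith
  omega

section

variable {L : Type} [Lattice L] [BoundedOrder L] [Finite L] [IsUpperModularLattice L]

/-- All lines have between `k` and `s` points. -/
theorem crit4_between' [DecidableEq L] [DecidableRel (α := L) (· ≤ ·)]
    (hat : ∀ x : L, ∃ s : Finset L, (∀ a ∈ s, IsAtom a) ∧ s.sup id = x)
    {A : Finset L} (hA : ∀ a, a ∈ A ↔ IsAtom a) (hrA : rk (A.sup id) = 4) {k s : ℕ}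
    (hk : ∀ g, rk g = 2 → k ≤ (A.filter (· ≤ g)).card)
    (hs : ∀ g, rk g = 2 → (A.filter (· ≤ g)).card ≤ s)
    (h : 4 * (s ^ 2 + 3 * s - k) ≤ (k - 2) * (k - 3) ^ 2) : Crit4 A := by
  have hA' : ∀ a ∈ A, IsAtom a := fun a ha => (hA a).mp ha
  by_cases hP : ∃ P, rk P = 3 ∧ s ^ 2 + 3 * s + 1 ≤ (A.filter (· ≤ P)).card
  · obtain ⟨P, h1, h2⟩ := hP
    exact Pool.Agent.Helper83.BQ.crit4_bigplane hA' hrA s
      (fun g hg => by convert hs g hg) h1 (by convert h2)
  · push Not at hP
    obtain ⟨a, ha, -, -⟩ := exists_atom hat (x := (⊥ : L)) (y := A.sup id) (fun h => by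
      have := rk_mono h
      rw [rk_bot, hrA] at this
      omega)
    obtain ⟨b, hb, -, hba⟩ := exists_atom hat (x := a) (y := A.sup id) (fun h => by
      have := rk_mono h
      rw [rk_atom ha, hrA] at this
      omega)
    have hab : a ≠ b := fun e => hba (e ▸ le_rfl)
    have hl : rk (a ⊔ b) = 2 := rk_line ha hb hab
    have h2 : 2 ≤ s := by
      refine le_trans ?_ (hs _ hl)
      exact two_le_card ((hA a).mpr ha) ((hA b).mpr hb) hab le_sup_left le_sup_right
    have h6 : 6 ≤ k := six_le' h2 ((hk _ hl).trans (hs _ hl)) h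
    refine Pool.Agent.Helper49.SW.crit4_fat hA' hrA (w := k - 1) (T := s ^ 2 + 3 * s - k)
      (by omega) ?_ ?_ ?_
    · intro z hz H hH hzH
      have h3 := fat_of_lines hat hA hk hz hH hzH
      have h4 : k ≤ (Pool.Agent.Helper49.SW.linesAt A z H).card := by
        unfold Pool.Agent.Helper49.SW.linesAt
        convert h3
      omega
    · intro H hH g hg hgH
      have h3 := hP H hH
      have h4 := hk g hg
      have h5 : (A.filter (fun x => ¬ x ≤ g ∧ x ≤ H)).card + (A.filter (· ≤ g)).card ≤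
          (A.filter (· ≤ H)).card := by
        rw [← Finset.card_union_of_disjoint]
        · refine Finset.card_le_card ?_
          intro x hx
          rw [Finset.mem_union, Finset.mem_filter, Finset.mem_filter] at hx
          rw [Finset.mem_filter]
          rcases hx with hx | hx
          · exact ⟨hx.1, hx.2.2⟩
          · exact ⟨hx.1, hx.2.trans hgH⟩
        · rw [Finset.disjoint_left]
          intro x hx hx'
          exact (Finset.mem_filter.mp hx).2.1 (Finset.mem_filter.mp hx').2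
      have h6' : (A.filter (fun x => ¬ x ≤ g ∧ x ≤ H)).card ≤ s ^ 2 + 3 * s - k := by omega
      convert h6'
    · have e1 : k - 1 - 1 = k - 2 := by omega
      have e2 : k - 1 - 2 = k - 3 := by omega
      rw [e1, e2]
      exact h

end

/-- **Lines between `k` and `s` points.** -/
theorem packing_between' {L : Type} [Lattice L] [BoundedOrder L] [Fintype L]
    [IsUpperModularLattice L]
    (hat : ∀ x : L, ∃ s : Finset L, (∀ a ∈ s, IsAtom a) ∧ s.sup id = x)
    (hr : Order.height (⊤ : L) = 4)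
    (h : ∃ k s : ℕ, 4 * (s ^ 2 + 3 * s - k) ≤ (k - 2) * (k - 3) ^ 2 ∧
      ∀ g : L, Order.height g = 2 →
        k ≤ {a : L | IsAtom a ∧ a ≤ g}.ncard ∧ {a : L | IsAtom a ∧ a ≤ g}.ncard ≤ s) :
    ∃ (t : ℕ) (n : Fin t → ℕ) (φ : ∀ i : Fin t, Set (Fin (n i)) → L),
      (∀ i, Function.Injective (φ i)) ∧
      (∀ i (a b : Set (Fin (n i))), a ⋖ b → φ i a ⋖ φ i b) ∧
      (∀ i, Order.height (⊤ : L) ≤ Order.height (φ i ⊥) + Order.height (φ i ⊤)) ∧
      (∀ x : L, ∃! p : (Σ i : Fin t, Set (Fin (n i))), φ p.1 p.2 = x) := by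
  classical
  obtain ⟨k, s, hks, hg⟩ := h
  refine packing_of_crit4 hat hr ?_
  intro A hA hrA
  refine crit4_between' hat hA hrA (k := k) (s := s) ?_ ?_ hks
  · intro g hgr
    rw [← ncard_atoms hA]
    exact (hg g (height_of_rk' hgr)).1
  · intro g hgr
    rw [← ncard_atoms hA]
    exact (hg g (height_of_rk' hgr)).2

end Pool.Agent.Helper73.SW
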