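import Pool.Agent.Helper88.RF.Dense
import Pool.Agent.Helper68.RF.Inst
import Pool.Agent.Helper50.RF.D4
import Pool.Agent.Helper80.RF.DefSum
import Pool.Agent.Helper86.SW.Bad

/-!
# MP_47cd0b: all but finitely many geometric lattices of rank four, from row D5
-/

set_option autoImplicit false

namespace Pool.Agent.Helper73.SW

open Pool.Agent.Helper28.BPack Pool.Agent.Helper61.Motz

/-- the first case on cones -/
theorem caseA (Y U E G P R : Type) [Fintype Y] [Fintype U] [Fintype E] :
    H20SW.Cone.CaseA Y U E G P R := by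
  intro C a ha hN _ hs J α β hJ hl
  refine Pool.Agent.Helper50.RF.case_a C ha hN hs hJ ?_ ?_ hl
  · intro z
    exact Pool.Agent.Helper80.RF.def_sum C ha hN hs hJ z
  · intro z l hz
    exact C.bad_pl J z l hz

/-- the final theorem, from the second case on cones (row D5) -/
theorem rank_four_of (caseB : ∀ (Y U E G P R : Type) [Fintype Y] [Fintype U] [Fintype E],
      H20SW.Cone.CaseB Y U E G P R)
    (L : Type) [Lattice L] [BoundedOrder L] [Fintype L] [IsUpperModularLattice L]
    (hat : ∀ x : L, ∃ s : Finset L, (∀ a ∈ s, IsAtom a) ∧ s.sup id = x)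
    (hr : Order.height (⊤ : L) = 4)
    (hn : 3 * 3000 ^ 60 ≤ {a : L | IsAtom a}.ncard) :
    ∃ (t : ℕ) (n : Fin t → ℕ) (φ : ∀ i : Fin t, Set (Fin (n i)) → L),
      (∀ i, Function.Injective (φ i)) ∧
      (∀ i (a b : Set (Fin (n i))), a ⋖ b → φ i a ⋖ φ i b) ∧
      (∀ i, Order.height (⊤ : L) ≤ Order.height (φ i ⊥) + Order.height (φ i ⊤)) ∧
      (∀ x : L, ∃! p : (Σ i : Fin t, Set (Fin (n i))), φ p.1 p.2 = x) := by
  refine Pool.Agent.Helper88.RC.packing_of_dense (a0 := 3000) (by norm_num) ?_ hat hr hn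
  refine Pool.Agent.Helper88.RC.dense_of_cones ?_ ?_
  · intro A hA hr Q hQ hmax s hs D
    exact Pool.Agent.Helper68.RF.crit4_of_cones hA hr hQ hmax hs D
  · intro Y U E _ _ _ C a ha h1 h2 h3
    exact H20SW.Cone.good_of_cases (caseA Y U E L L L) (caseB Y U E L L L) C ha h1 h2 h3

end Pool.Agent.Helper73.SW
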