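import Pool.Agent.Helper63.CR.Wrap
import Pool.Agent.Helper83.BQ.BigPlane

/-!
# Rank four: all lines have between `k` and `s` points, from the theorem on fat planes
-/

set_option autoImplicit false
set_option linter.unusedSectionVars false

namespace Pool.Agent.Helper73.SW

open Finset Pool.Agent.Helper28.BPack Pool.Agent.Helper61.Motz Pool.Agent.Helper38.Thick
  Pool.Agent.Helper8.ManyLines Pool.Agent.Helper63.CR

section

variable {L : Type} [Lattice L] [BoundedOrder L] [Finite L] [IsUpperModularLattice L]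
  [DecidableEq L] [DecidableRel (α := L) (· ≤ ·)]

/-- The set of all atoms: every point has at least `k` lines in every plane through it, if all lines
have at least `k` points. -/
theorem fat_of_lines (hat : ∀ x : L, ∃ s : Finset L, (∀ a ∈ s, IsAtom a) ∧ s.sup id = x)
    {A : Finset L} (hA : ∀ a, a ∈ A ↔ IsAtom a) {k : ℕ}
    (hk : ∀ g, rk g = 2 → k ≤ (A.filter (· ≤ g)).card) {z H : L} (hz : z ∈ A) (hH : rk H = 3)
    (hzH : z ≤ H) :
    k ≤ ((A.filter (fun y => y ≤ H ∧ y ≠ z)).image (fun y => z ⊔ y)).card := by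
  have hza : IsAtom z := (hA z).mp hz
  obtain ⟨x, hx, hxH, hxz⟩ := exists_atom hat (x := z) (y := H) (fun h => by
    have := rk_mono h
    rw [rk_atom hza, hH] at this
    omega)
  have hzx : z ≠ x := fun h => hxz (h ▸ le_rfl)
  have hzx2 : rk (z ⊔ x) = 2 := rk_line hza hx hzx
  obtain ⟨y, hy, hyH, hyl⟩ := exists_atom hat (x := z ⊔ x) (y := H) (fun h => by
    have := rk_mono h
    rw [hzx2, hH] at this
    omega)
  have hxy : x ≠ y := fun h => hyl (h ▸ le_sup_right)
  have hxy2 : rk (x ⊔ y) = 2 := rk_line hx hy hxy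
  have hzl : ¬ z ≤ x ⊔ y := by
    intro h
    have h1 : z ⊔ x = x ⊔ y :=
      eq_of_le_of_rk (sup_le h le_sup_left) (by rw [hzx2, hxy2])
    exact hyl (h1 ▸ le_sup_right)
  refine (hk (x ⊔ y) hxy2).trans ?_
  refine Finset.card_le_card_of_injOn (fun t => z ⊔ t) ?_ ?_
  · intro t ht
    rw [Finset.mem_coe, Finset.mem_filter] at ht
    rw [Finset.mem_coe, Finset.mem_image]
    refine ⟨t, Finset.mem_filter.mpr ⟨ht.1, ht.2.trans (sup_le hxH hyH), ?_⟩, rfl⟩
    rintro rfl
    exact hzl ht.2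
  · intro t ht t' ht' h
    rw [Finset.mem_coe, Finset.mem_filter] at ht ht'
    by_contra hne
    have hta := (hA t).mp ht.1
    have hta' := (hA t').mp ht'.1
    have h1 : rk (t ⊔ t') = 2 := rk_line hta hta' hne
    have h2 : t ⊔ t' = x ⊔ y :=
      eq_of_le_of_rk (sup_le ht.2 ht'.2) (by rw [h1, hxy2])
    have hzt : z ≠ t := fun e => hzl (e ▸ ht.2)
    have h' : z ⊔ t = z ⊔ t' := h
    have h3 : t ⊔ t' = z ⊔ t :=
      eq_of_le_of_rk (sup_le le_sup_right (h' ▸ le_sup_right))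
        (by rw [h1, rk_line hza hta hzt])
    exact hzl (h2 ▸ h3 ▸ le_sup_left)

end

theorem six_le {k s : ℕ} (hs : 2 ≤ s)
    (h : 4 * (s ^ 2 + 3 * s) ≤ (k - 2) * (k - 3) ^ 2) : 6 ≤ k := by
  by_contra hk
  have h1 : (k - 2) * (k - 3) ^ 2 ≤ 3 * 2 ^ 2 :=
    Nat.mul_le_mul (by omega) (Nat.pow_le_pow_left (by omega) 2)
  nlinarith

/-- The theorem on fat planes, as a hypothesis. -/
def FatThm : Prop :=
  ∀ (L : Type) [Lattice L] [BoundedOrder L] [Finite L] [IsUpperModularLattice L]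
    [DecidableEq L] [DecidableRel (α := L) (· ≤ ·)] (A : Finset L),
    (∀ a ∈ A, IsAtom a) → rk (A.sup id) = 4 → ∀ w T : ℕ, 5 ≤ w →
    (∀ z ∈ A, ∀ H, rk H = 3 → z ≤ H →
      w + 1 ≤ ((A.filter (fun y => y ≤ H ∧ y ≠ z)).image (fun y => z ⊔ y)).card) →
    (∀ H, rk H = 3 → (A.filter (· ≤ H)).card ≤ T) → 4 * T ≤ (w - 1) * (w - 2) ^ 2 → Crit4 A

section

variable {L : Type} [Lattice L] [BoundedOrder L] [Finite L] [IsUpperModularLattice L]

/-- All lines have between `k` and `s` points. -/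
theorem crit4_between (fat : FatThm) [DecidableEq L] [DecidableRel (α := L) (· ≤ ·)]
    (hat : ∀ x : L, ∃ s : Finset L, (∀ a ∈ s, IsAtom a) ∧ s.sup id = x)
    {A : Finset L} (hA : ∀ a, a ∈ A ↔ IsAtom a) (hrA : rk (A.sup id) = 4) {k s : ℕ}
    (hk : ∀ g, rk g = 2 → k ≤ (A.filter (· ≤ g)).card)
    (hs : ∀ g, rk g = 2 → (A.filter (· ≤ g)).card ≤ s)
    (h : 4 * (s ^ 2 + 3 * s) ≤ (k - 2) * (k - 3) ^ 2) : Crit4 A := by
  have hA' : ∀ a ∈ A, IsAtom a := fun a ha => (hA a).mp ha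
  by_cases hP : ∃ P, rk P = 3 ∧ s ^ 2 + 3 * s + 1 ≤ (A.filter (· ≤ P)).card
  · obtain ⟨P, h1, h2⟩ := hP
    exact Pool.Agent.Helper83.BQ.crit4_bigplane hA' hrA s
      (fun g hg => by convert hs g hg) h1 (by convert h2)
  · push Not at hP
    -- a line
    obtain ⟨a, ha, -, -⟩ := exists_atom hat (x := (⊥ : L)) (y := A.sup id) (fun h => by
      have := rk_mono h
      rw [rk_bot, hrA] at this
      omega)
    obtain ⟨b, hb, -, hba⟩ := exists_atom hat (x := a) (y := A.sup id) (fun h => by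
      have := rk_mono h
      rw [rk_atom ha, hrA] at this
      omega)
    have hab : a ≠ b := fun e => hba (e ▸ le_rfl)
    have hl : rk (a ⊔ b) = 2 := rk_line ha hb hab
    have h2 : 2 ≤ s := by
      refine le_trans ?_ (hs _ hl)
      exact two_le_card ((hA a).mpr ha) ((hA b).mpr hb) hab le_sup_left le_sup_right
    have h6 : 6 ≤ k := six_le h2 h
    refine fat L A hA' hrA (k - 1) (s ^ 2 + 3 * s) (by omega) ?_ ?_ ?_
    · intro z hz H hH hzH
      have := fat_of_lines hat hA hk hz hH hzH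
      omega
    · intro H hH
      have := hP H hH
      omega
    · have e1 : k - 1 - 1 = k - 2 := by omega
      have e2 : k - 1 - 2 = k - 3 := by omega
      rw [e1, e2]
      exact h

end

/-- **Lines between `k` and `s` points.** -/
theorem packing_between (fat : FatThm) {L : Type} [Lattice L] [BoundedOrder L] [Fintype L]
    [IsUpperModularLattice L]
    (hat : ∀ x : L, ∃ s : Finset L, (∀ a ∈ s, IsAtom a) ∧ s.sup id = x)
    (hr : Order.height (⊤ : L) = 4)
    (h : ∃ k s : ℕ, 4 * (s ^ 2 + 3 * s) ≤ (k - 2) * (k - 3) ^ 2 ∧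
      ∀ g : L, Order.height g = 2 →
        k ≤ {a : L | IsAtom a ∧ a ≤ g}.ncard ∧ {a : L | IsAtom a ∧ a ≤ g}.ncard ≤ s) :
    ∃ (t : ℕ) (n : Fin t → ℕ) (φ : ∀ i : Fin t, Set (Fin (n i)) → L),
      (∀ i, Function.Injective (φ i)) ∧
      (∀ i (a b : Set (Fin (n i))), a ⋖ b → φ i a ⋖ φ i b) ∧
      (∀ i, Order.height (⊤ : L) ≤ Order.height (φ i ⊥) + Order.height (φ i ⊤)) ∧
      (∀ x : L, ∃! p : (Σ i : Fin t, Set (Fin (n i))), φ p.1 p.2 = x) := by
  classical
  obtain ⟨k, s, hks, hg⟩ := h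
  refine packing_of_crit4 hat hr ?_
  intro A hA hrA
  refine crit4_between fat hat hA hrA (k := k) (s := s) ?_ ?_ hks
  · intro g hgr
    rw [← ncard_atoms hA]
    exact (hg g (height_of_rk' hgr)).1
  · intro g hgr
    rw [← ncard_atoms hA]
    exact (hg g (height_of_rk' hgr)).2

end Pool.Agent.Helper73.SW
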